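import Pool.Agent.Helper252_Enum.R31_monotone_final

set_option autoImplicit false

namespace Pool.Agent.Results.MP_4ccb00_al.AllLargeN

/-- There is an absolute constant `n₀` such that for all `n ≥ n₀` and all primes `p < q` there are
strictly fewer groups of order `p ^ n` than of order `q ^ n`, up to isomorphism. -/
theorem result : ∃ n₀ : ℕ, ∀ n : ℕ, n₀ ≤ n → ∀ p q : ℕ, p.Prime → q.Prime → p < q →
      Nat.card (Quot (fun g h : Group (Fin (p ^ n)) =>
        Nonempty (@MulEquiv (Fin (p ^ n)) (Fin (p ^ n))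
          (@Semigroup.toMul _ (@Monoid.toSemigroup _ (@DivInvMonoid.toMonoid _ (@Group.toDivInvMonoid _ g))))
          (@Semigroup.toMul _ (@Monoid.toSemigroup _ (@DivInvMonoid.toMonoid _ (@Group.toDivInvMonoid _ h)))))))
      <
      Nat.card (Quot (fun g h : Group (Fin (q ^ n)) =>
        Nonempty (@MulEquiv (Fin (q ^ n)) (Fin (q ^ n))
          (@Semigroup.toMul _ (@Monoid.toSemigroup _ (@DivInvMonoid.toMonoid _ (@Group.toDivInvMonoid _ g))))
          (@Semigroup.toMul _ (@Monoid.toSemigroup _ (@DivInvMonoid.toMonoid _ (@Group.toDivInvMonoid _ h))))))) :=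
  Pool.Agent.Helper252_Enum.monotone_final

end Pool.Agent.Results.MP_4ccb00_al.AllLargeN
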